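import Pool.Agent.H24.T2.Interface
import Pool.Agent.H27.MR.RA

/-!
The location function of a sequence with values `0, 1, -1`, and counting lemmas for the zeros of
the product of Chowla's conjecture.
-/

set_option autoImplicit false

open Finset Filter Topology

namespace Pool.Agent.H14.T2

open Pool.Agent.H24.MR
open Pool.Agent.H24.T2
open Pool.Agent.H27.MR (WW WW_pos le_WW sq_dvd_WW dvd_WW_iff card_nonsq_le squarefree_of)

open Classical in
/-- the value at the first point `≥ n` of `P`, as a sign -/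
noncomputable def sfun (P : ℕ → Prop) (F : ℕ → ℝ) (n : ℕ) : ℤ :=
  if h : ∃ i, n ≤ i ∧ P i then (if F (Nat.find h) = 1 then 1 else -1) else 1

lemma sfun_or (P : ℕ → Prop) (F : ℕ → ℝ) (n : ℕ) : sfun P F n = 1 ∨ sfun P F n = -1 := by
  unfold sfun
  split_ifs <;> simp

lemma sfun_of_pos {P : ℕ → Prop} {F : ℕ → ℝ} {n : ℕ} (h : P n) :
    sfun P F n = if F n = 1 then 1 else -1 := by
  classical
  have hex : ∃ i, n ≤ i ∧ P i := ⟨n, le_refl _, h⟩
  unfold sfun
  rw [dif_pos hex]
  have : Nat.find hex = n := by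
    rw [Nat.find_eq_iff]
    exact ⟨⟨le_refl _, h⟩, fun m hm hm' => by omega⟩
  rw [this]

lemma sfun_of_neg {P : ℕ → Prop} {F : ℕ → ℝ} {n : ℕ} (h : ¬ P n) :
    sfun P F n = sfun P F (n + 1) := by
  classical
  have hiff : ∀ i, (n ≤ i ∧ P i) ↔ (n + 1 ≤ i ∧ P i) := by
    intro i
    constructor
    · rintro ⟨h1, h2⟩
      refine ⟨?_, h2⟩
      rcases Nat.eq_or_lt_of_le h1 with h3 | h3
      · subst h3
        exact absurd h2 h
      · exact h3
    · rintro ⟨h1, h2⟩
      exact ⟨by omega, h2⟩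
  unfold sfun
  by_cases hex : ∃ i, n ≤ i ∧ P i
  · have hex' : ∃ i, n + 1 ≤ i ∧ P i := by
      obtain ⟨i, hi⟩ := hex
      exact ⟨i, (hiff i).1 hi⟩
    rw [dif_pos hex, dif_pos hex']
    have : Nat.find hex = Nat.find hex' := by
      apply Nat.find_congr'
      intro i
      exact hiff i
    rw [this]
  · have hex' : ¬ ∃ i, n + 1 ≤ i ∧ P i := by
      rintro ⟨i, hi⟩
      exact hex ⟨i, (hiff i).2 hi⟩
    rw [dif_neg hex, dif_neg hex']

/-- a change of the location function gives a sign change in a short window, or a long gap -/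
lemma sfun_change {P : ℕ → Prop} {F : ℕ → ℝ} (hF : ∀ n, P n → F n = 1 ∨ F n = -1) {n h : ℕ}
    (hn : sfun P F n ≠ sfun P F (n + 1)) :
    ((∃ i ∈ Finset.Icc n (n + h), P i ∧ F i = 1) ∧ (∃ j ∈ Finset.Icc n (n + h), P j ∧ F j = -1)) ∨
      (∀ j ∈ Finset.Icc 1 h, ¬ P (n + j)) := by
  classical
  by_cases hg : ∀ j ∈ Finset.Icc 1 h, ¬ P (n + j)
  · exact Or.inr hg
  left
  push Not at hg
  obtain ⟨j, hj, hPj⟩ := hg
  rw [Finset.mem_Icc] at hj
  have hPn : P n := by
    by_contra hc
    exact hn (sfun_of_neg hc)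
  have hex : ∃ i, n + 1 ≤ i ∧ P i := ⟨n + j, by omega, hPj⟩
  have h1 := Nat.find_spec hex
  have h2 : Nat.find hex ≤ n + j := Nat.find_min' hex ⟨by omega, hPj⟩
  rw [sfun_of_pos hPn] at hn
  unfold sfun at hn
  rw [dif_pos hex] at hn
  rcases hF n hPn with h3 | h3
  · rcases hF _ h1.2 with h4 | h4
    · rw [if_pos h3, if_pos h4] at hn
      exact absurd rfl hn
    · exact ⟨⟨n, by simp, hPn, h3⟩,
        ⟨Nat.find hex, by rw [Finset.mem_Icc]; omega, h1.2, h4⟩⟩
  · rcases hF _ h1.2 with h4 | h4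
    · exact ⟨⟨Nat.find hex, by rw [Finset.mem_Icc]; omega, h1.2, h4⟩,
        ⟨n, by simp, hPn, h3⟩⟩
    · rw [if_neg (by rw [h3]; norm_num), if_neg (by rw [h4]; norm_num)] at hn
      exact absurd rfl hn

/-- values of the product -/
lemma Fr_or {r : ℕ} (α : Fin r → ℤ) (ε : Fin r → ℕ) (m : ℕ) :
    Fr α ε m = 0 ∨ Fr α ε m = 1 ∨ Fr α ε m = -1 := by
  unfold Fr
  by_cases h : ∃ i, ((ArithmeticFunction.moebius (((m : ℤ) + α i).toNat) : ℤ) : ℝ) ^ ε i = 0
  · obtain ⟨i, hi⟩ := h
    left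
    exact Finset.prod_eq_zero (Finset.mem_univ i) hi
  · push Not at h
    right
    have h1 : ∀ i, ((ArithmeticFunction.moebius (((m : ℤ) + α i).toNat) : ℤ) : ℝ) ^ ε i = 1 ∨
        ((ArithmeticFunction.moebius (((m : ℤ) + α i).toNat) : ℤ) : ℝ) ^ ε i = -1 := by
      intro i
      have h2 := h i
      have h3 : ((m : ℤ) + α i).toNat = ((m : ℤ) + α i).toNat := rfl
      rcases ArithmeticFunction.moebius_eq_or (((m : ℤ) + α i).toNat) with h4 | h4 | h4
      · rw [h4] at h2 ⊢
        rcases Nat.eq_zero_or_pos (ε i) with h5 | h5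
        · left
          rw [h5]
          simp
        · exfalso
          apply h2
          rw [Int.cast_zero, zero_pow h5.ne']
      · rw [h4]
        left
        simp
      · rw [h4]
        push_cast
        exact neg_one_pow_eq_or ℝ _
    have h2 : ∀ s : Finset (Fin r),
        ∏ i ∈ s, ((ArithmeticFunction.moebius (((m : ℤ) + α i).toNat) : ℤ) : ℝ) ^ ε i = 1 ∨
        ∏ i ∈ s, ((ArithmeticFunction.moebius (((m : ℤ) + α i).toNat) : ℤ) : ℝ) ^ ε i = -1 := by
      intro s
      induction s using Finset.induction_on with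
      | empty => simp
      | insert a s ha ih =>
        rw [Finset.prod_insert ha]
        rcases h1 a with h5 | h5 <;> rcases ih with h6 | h6 <;> rw [h5, h6] <;> norm_num
    exact h2 Finset.univ

/-- the product is nonzero iff all shifts are squarefree (exponents positive) -/
lemma Fr_ne_zero_iff {r : ℕ} (α : Fin r → ℤ) (ε : Fin r → ℕ) (hε : ∀ i, 1 ≤ ε i) (m : ℕ) :
    Fr α ε m ≠ 0 ↔ ∀ i, Squarefree (((m : ℤ) + α i).toNat) := by
  unfold Fr
  rw [Finset.prod_ne_zero_iff]
  constructor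
  · intro h i
    have h1 := h i (Finset.mem_univ i)
    rw [← ArithmeticFunction.moebius_ne_zero_iff_squarefree]
    intro h2
    apply h1
    rw [h2, Int.cast_zero, zero_pow (by have := hε i; omega)]
  · intro h i _
    apply pow_ne_zero
    rw [Int.cast_ne_zero, ArithmeticFunction.moebius_ne_zero_iff_squarefree]
    exact h i

open Classical in
/-- zeros of the product in a good class are rare -/
lemma card_zero_le {r : ℕ} (α : Fin r → ℤ) (ε : Fin r → ℕ) (hε : ∀ i, 1 ≤ ε i) (q n₀ w C : ℕ)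
    (hq : 0 < q) (hw : 0 < w) (hqw : q ≤ w) (hn₀ : Fr α ε n₀ ≠ 0) (hC : ∀ i, |α i| ≤ C) (M : ℕ) :
    (((Finset.range M).filter
      (fun m => (C < m ∧ m ≡ n₀ [MOD WW q w] ∧ Fr α ε m = 0))).card : ℝ) ≤
      r * (M / WW q w * (1 / w) + (Nat.sqrt (M + C) : ℝ)) := by
  have hsf := (Fr_ne_zero_iff α ε hε n₀).1 hn₀
  have hWpos := WW_pos hq w
  set T : Fin r → Finset ℕ := fun i => (Finset.range M).filter fun m =>
    (m ≡ n₀ [MOD WW q w] ∧ C < m) ∧
      ∃ p : ℕ, p.Prime ∧ w < p ∧ (p : ℤ) ^ 2 ∣ (m : ℤ) + α i with hT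
  have hsub : (Finset.range M).filter
      (fun m => (C < m ∧ m ≡ n₀ [MOD WW q w] ∧ Fr α ε m = 0)) ⊆ Finset.univ.biUnion T := by
    intro m hm
    rw [mem_filter] at hm
    obtain ⟨hm1, hm2, hm3, hm4⟩ := hm
    rw [mem_biUnion]
    by_contra hcon
    push Not at hcon
    have h1 : ∀ i, Squarefree (((m : ℤ) + α i).toNat) := by
      intro i
      have hcon' := hcon i (Finset.mem_univ i)
      rw [hT] at hcon'
      simp only [mem_filter, not_and, not_exists] at hcon'
      have h2 := hcon' hm1 ⟨hm3, hm2⟩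
      have h3 := (abs_le.1 (hC i)).1
      have h4 : ((C : ℕ) : ℤ) < m := by exact_mod_cast hm2
      refine squarefree_of (w := w) (W := WW q w) (fun p hp hpw => sq_dvd_WW hp hpw)
        (n := (m : ℤ)) (n₀ := n₀) ?_ (by linarith) ?_ (hsf i) (fun p hp hwp => h2 p hp hwp)
      · exact (Nat.modEq_iff_dvd.1 hm3.symm)
      · by_contra hc
        have h5 : ((n₀ : ℤ) + α i).toNat = 0 := Int.toNat_of_nonpos (by linarith)
        have h6 := hsf i
        rw [h5] at h6
        exact not_squarefree_zero h6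
    exact (Fr_ne_zero_iff α ε hε m).2 h1 hm4
  have hcard : (((Finset.range M).filter
      (fun m => (C < m ∧ m ≡ n₀ [MOD WW q w] ∧ Fr α ε m = 0))).card : ℝ) ≤
      ∑ i, ((T i).card : ℝ) := by
    exact_mod_cast (Finset.card_le_card hsub).trans Finset.card_biUnion_le
  refine hcard.trans ?_
  have hi : ∀ i ∈ (Finset.univ : Finset (Fin r)), ((T i).card : ℝ) ≤
      M / WW q w * (1 / w) + (Nat.sqrt (M + C) : ℝ) := by
    intro i _
    have h1 := card_nonsq_le (WW q w) w hWpos hw (by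
      intro p hp hwp hd
      have h2 : p ∣ WW q w := (dvd_pow_self p two_ne_zero).trans hd
      have := (dvd_WW_iff hq hqw hp).1 h2
      omega) (α i) n₀ M C (hC i) (T i) (by
      intro u hu
      rw [hT, mem_filter, mem_range] at hu
      obtain ⟨hu1, ⟨hu2, hu3⟩, hu4⟩ := hu
      refine ⟨hu1, hu2, ?_, hu4⟩
      have h3 := (abs_le.1 (hC i)).1
      have h4 : ((C : ℕ) : ℤ) < u := by exact_mod_cast hu3
      linarith)
    have h2 : (WW q w).primeFactors.filter (fun p => w < p) = ∅ := by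
      rw [Finset.filter_eq_empty_iff]
      intro p hp hwp
      rw [Nat.mem_primeFactors] at hp
      have := (dvd_WW_iff hq hqw hp.1).1 hp.2.1
      omega
    rw [h2, Finset.sum_empty, add_zero] at h1
    exact h1
  refine (Finset.sum_le_sum hi).trans ?_
  rw [Finset.sum_const, nsmul_eq_mul, Finset.card_univ, Fintype.card_fin]

/-- the product is the product of the values of the Liouville function over the odd exponents -/
lemma Fr_eq_prod {r : ℕ} (α : Fin r → ℤ) (ε : Fin r → ℕ) (hε : ∀ i, 1 ≤ ε i) (m : ℕ)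
    (hm : Fr α ε m ≠ 0) :
    Fr α ε m = ∏ i ∈ (Finset.univ : Finset (Fin r)).filter (fun i => Odd (ε i)),
      lam (((m : ℤ) + α i).toNat) := by
  have hsf := (Fr_ne_zero_iff α ε hε m).1 hm
  unfold Fr
  rw [Finset.prod_filter]
  refine Finset.prod_congr rfl fun i _ => ?_
  have h1 : ((ArithmeticFunction.moebius (((m : ℤ) + α i).toNat) : ℤ) : ℝ) =
      lam (((m : ℤ) + α i).toNat) := by
    rw [ArithmeticFunction.moebius_apply_of_squarefree (hsf i)]
    unfold lam
    push_cast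
    rfl
  rw [h1]
  have h2 : lam (((m : ℤ) + α i).toNat) = 1 ∨ lam (((m : ℤ) + α i).toNat) = -1 :=
    neg_one_pow_eq_or ℝ _
  split_ifs with h3
  · rcases h2 with h4 | h4
    · rw [h4, one_pow]
    · rw [h4, h3.neg_one_pow]
  · rw [Nat.not_odd_iff_even] at h3
    rcases h2 with h4 | h4
    · rw [h4, one_pow]
    · rw [h4, h3.neg_one_pow]

end Pool.Agent.H14.T2
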