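import Mathlib

/-!
Moments of `∏_{p ∣ ℓ(t)} (1 + 1/p)` for linear forms with coefficients `0, 1, -1`.
-/

set_option autoImplicit false

open Finset

namespace Pool.Agent.H14.T2

lemma one_add_pow_le (M : ℕ) (x : ℝ) (h0 : 0 ≤ x) (h1 : x ≤ 1) :
    (1 + x) ^ M ≤ 1 + (2 ^ M - 1) * x := by
  induction M with
  | zero => simp
  | succ M ih =>
    have h2 : (1 : ℝ) ≤ 2 ^ M := one_le_pow₀ (by norm_num)
    calc (1 + x) ^ (M + 1) = (1 + x) ^ M * (1 + x) := pow_succ _ _
      _ ≤ (1 + (2 ^ M - 1) * x) * (1 + x) := mul_le_mul_of_nonneg_right ih (by linarith)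
      _ ≤ 1 + (2 ^ (M + 1) - 1) * x := by
        have h3 : (2 ^ M - 1) * (x * x) ≤ (2 ^ M - 1) * (x * 1) :=
          mul_le_mul_of_nonneg_left (mul_le_mul_of_nonneg_left h1 h0) (by linarith)
        rw [pow_succ]
        linarith

/-- the comparison of the Euler factors -/
lemma prod_pow_le (M n : ℕ) :
    (∏ p ∈ n.primeFactors, (1 + 1 / (p : ℝ))) ^ M ≤
      (2 ^ M) ^ (4 ^ M) * ∏ p ∈ n.primeFactors, (1 + 1 / Real.sqrt p) := by
  classical
  rw [← Finset.prod_pow]
  have h1 : ∀ p ∈ n.primeFactors, (1 + 1 / (p : ℝ)) ^ M ≤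
      (if p < 4 ^ M then (2 : ℝ) ^ M else 1) * (1 + 1 / Real.sqrt p) := by
    intro p hp
    have hpp := Nat.prime_of_mem_primeFactors hp
    have hp1 : (1 : ℝ) ≤ p := by exact_mod_cast hpp.one_lt.le
    have hp0 : (0 : ℝ) < p := by linarith
    have hx1 : 1 / (p : ℝ) ≤ 1 := by
      rw [div_le_one hp0]
      exact hp1
    have hs0 : 0 < Real.sqrt p := Real.sqrt_pos.2 hp0
    have hs1 : 0 ≤ 1 / Real.sqrt p := by positivity
    split_ifs with h2
    · have h3 : (1 + 1 / (p : ℝ)) ^ M ≤ 2 ^ M :=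
        pow_le_pow_left₀ (by positivity) (by linarith) M
      have h4 : (0 : ℝ) < 2 ^ M := by positivity
      nlinarith
    · rw [one_mul]
      refine (one_add_pow_le M _ (by positivity) hx1).trans ?_
      push Not at h2
      have h3 : (2 : ℝ) ^ M ≤ Real.sqrt p := by
        rw [Real.le_sqrt (by positivity) hp0.le]
        have h4 : ((4 ^ M : ℕ) : ℝ) ≤ p := by exact_mod_cast h2
        have h5 : ((2 : ℝ) ^ M) ^ 2 = ((4 ^ M : ℕ) : ℝ) := by
          push_cast
          rw [← pow_mul, mul_comm M 2, pow_mul]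
          norm_num
        rw [h5]
        exact h4
      have h4 : (2 ^ M - 1) * (1 / (p : ℝ)) ≤ Real.sqrt p * (1 / (p : ℝ)) :=
        mul_le_mul_of_nonneg_right (by linarith) (by positivity)
      have h5 : Real.sqrt p * (1 / (p : ℝ)) = 1 / Real.sqrt p := by
        have h6 : Real.sqrt p * Real.sqrt p = p := Real.mul_self_sqrt hp0.le
        rw [mul_one_div, div_eq_div_iff hp0.ne' hs0.ne', one_mul]
        exact h6
      linarith
  refine (Finset.prod_le_prod (fun p _ => by positivity) h1).trans ?_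
  rw [Finset.prod_mul_distrib]
  have h2 : 0 ≤ ∏ p ∈ n.primeFactors, (1 + 1 / Real.sqrt p) :=
    Finset.prod_nonneg fun p _ => by positivity
  refine mul_le_mul_of_nonneg_right ?_ h2
  rw [← Finset.prod_filter, Finset.prod_const]
  apply pow_le_pow_right₀ (one_le_pow₀ (by norm_num))
  calc (n.primeFactors.filter (fun p => p < 4 ^ M)).card ≤ (Finset.range (4 ^ M)).card := by
        apply Finset.card_le_card
        intro p hp
        rw [Finset.mem_filter] at hp
        rw [Finset.mem_range]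
        exact hp.2
    _ = 4 ^ M := Finset.card_range _

theorem prod_le_sum_divisors (t : ℕ) (ht : 0 < t) :
    ∏ p ∈ t.primeFactors, (1 + 1 / Real.sqrt p) ≤ ∑ d ∈ t.divisors, 1 / Real.sqrt d := by
  classical
  rw [Finset.prod_one_add]
  have hinj : Set.InjOn (fun A : Finset ℕ => ∏ p ∈ A, p)
      ((t.primeFactors.powerset : Finset (Finset ℕ)) : Set (Finset ℕ)) := by
    intro A hA B hB hAB
    simp only [Finset.coe_powerset, Set.mem_preimage, Set.mem_powerset_iff,
      Finset.coe_subset] at hA hB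
    have h1 : (∏ p ∈ A, p).primeFactors = A :=
      Nat.primeFactors_prod (fun p hp => Nat.prime_of_mem_primeFactors (hA hp))
    have h2 : (∏ p ∈ B, p).primeFactors = B :=
      Nat.primeFactors_prod (fun p hp => Nat.prime_of_mem_primeFactors (hB hp))
    simp only at hAB
    rw [← h1, ← h2, hAB]
  have h3 : ∀ A ∈ t.primeFactors.powerset, ∏ p ∈ A, (1 / Real.sqrt p) =
      1 / Real.sqrt ((∏ p ∈ A, p : ℕ) : ℝ) := by
    intro A hA
    clear hA
    rw [Finset.prod_div_distrib, Finset.prod_const_one, Nat.cast_prod]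
    congr 1
    induction A using Finset.induction_on with
    | empty => simp
    | insert a s ha ih =>
      rw [Finset.prod_insert ha, Finset.prod_insert ha, Real.sqrt_mul (Nat.cast_nonneg _), ih]
  rw [Finset.sum_congr rfl h3, ← Finset.sum_image (f := fun d : ℕ => 1 / Real.sqrt (d : ℝ)) hinj]
  apply Finset.sum_le_sum_of_subset_of_nonneg
  · intro l hl
    rw [Finset.mem_image] at hl
    obtain ⟨A, hA, rfl⟩ := hl
    rw [Finset.mem_powerset] at hA
    rw [Nat.mem_divisors]
    refine ⟨?_, ht.ne'⟩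
    exact (Finset.prod_dvd_prod_of_subset _ _ _ hA).trans (Nat.prod_primeFactors_dvd t)
  · intro l _ _
    positivity

/-- one variable moments -/
theorem moment_one (M : ℕ) : ∃ K : ℝ, 0 < K ∧ ∀ T : ℕ,
    ∑ t ∈ Finset.Icc 1 T, (∏ p ∈ t.primeFactors, (1 + 1 / (p : ℝ))) ^ M ≤ K * T := by
  have hsum : Summable (fun n : ℕ => (n : ℝ) ^ (-(3 / 2) : ℝ)) := by
    rw [Real.summable_nat_rpow]
    norm_num
  set Z : ℝ := ∑' n : ℕ, (n : ℝ) ^ (-(3 / 2) : ℝ) with hZ
  have hZ0 : 0 ≤ Z := tsum_nonneg (fun n => by positivity)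
  refine ⟨(2 ^ M) ^ (4 ^ M) * (Z + 1), by positivity, fun T => ?_⟩
  have h1 : ∑ t ∈ Finset.Icc 1 T, ∑ d ∈ t.divisors, 1 / Real.sqrt (d : ℝ) ≤ Z * T := by
    have h2 : ∑ t ∈ Finset.Icc 1 T, ∑ d ∈ t.divisors, 1 / Real.sqrt (d : ℝ) =
        ∑ d ∈ Finset.Icc 1 T, ∑ t ∈ Finset.Icc 1 T with d ∣ t, 1 / Real.sqrt (d : ℝ) := by
      apply Finset.sum_comm'
      intro t d
      rw [Finset.mem_Icc, Nat.mem_divisors, Finset.mem_filter, Finset.mem_Icc, Finset.mem_Icc]
      constructor
      · rintro ⟨⟨h1, h2⟩, h3, h4⟩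
        exact ⟨⟨⟨h1, h2⟩, h3⟩, Nat.pos_of_dvd_of_pos h3 h1, (Nat.le_of_dvd h1 h3).trans h2⟩
      · rintro ⟨⟨⟨h1, h2⟩, h3⟩, _, _⟩
        exact ⟨⟨h1, h2⟩, h3, by omega⟩
    rw [h2]
    calc ∑ d ∈ Finset.Icc 1 T, ∑ t ∈ Finset.Icc 1 T with d ∣ t, 1 / Real.sqrt (d : ℝ)
        ≤ ∑ d ∈ Finset.Icc 1 T, (T : ℝ) * (d : ℝ) ^ (-(3 / 2) : ℝ) := by
          apply Finset.sum_le_sum
          intro d hd
          rw [Finset.mem_Icc] at hd
          have hd0 : (0:ℝ) < d := by exact_mod_cast hd.1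
          rw [Finset.sum_const, nsmul_eq_mul]
          have h2 : (((Finset.Icc 1 T).filter (fun t => d ∣ t)).card : ℝ) ≤ (T : ℝ) / d := by
            have h3 : ((Finset.Icc 1 T).filter (fun t => d ∣ t)).card = T / d := by
              have := Nat.Ioc_filter_dvd_card_eq_div T d
              rw [← this]
              congr 1
            rw [h3]
            exact Nat.cast_div_le
          have h4 : (d : ℝ) ^ (-(3 / 2) : ℝ) = 1 / d * (1 / Real.sqrt d) := by
            rw [Real.sqrt_eq_rpow, one_div, one_div, ← Real.rpow_neg_one, ← Real.rpow_neg hd0.le,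
              ← Real.rpow_add hd0]
            norm_num
          rw [h4]
          calc (((Finset.Icc 1 T).filter (fun t => d ∣ t)).card : ℝ) * (1 / Real.sqrt d)
              ≤ (T : ℝ) / d * (1 / Real.sqrt d) := by gcongr
            _ = _ := by ring
      _ = (T : ℝ) * ∑ d ∈ Finset.Icc 1 T, (d : ℝ) ^ (-(3 / 2) : ℝ) := by rw [Finset.mul_sum]
      _ ≤ (T : ℝ) * Z := by
          have := hsum.sum_le_tsum (Finset.Icc 1 T) (fun n _ => by positivity)
          gcongr
      _ = Z * T := by ring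
  calc ∑ t ∈ Finset.Icc 1 T, (∏ p ∈ t.primeFactors, (1 + 1 / (p : ℝ))) ^ M
      ≤ ∑ t ∈ Finset.Icc 1 T, (2 ^ M) ^ (4 ^ M) * ∑ d ∈ t.divisors, 1 / Real.sqrt (d : ℝ) := by
        apply Finset.sum_le_sum
        intro t ht
        rw [Finset.mem_Icc] at ht
        refine (prod_pow_le M t).trans ?_
        exact mul_le_mul_of_nonneg_left (prod_le_sum_divisors t ht.1) (by positivity)
    _ = (2 ^ M) ^ (4 ^ M) * ∑ t ∈ Finset.Icc 1 T, ∑ d ∈ t.divisors, 1 / Real.sqrt (d : ℝ) := by
        rw [Finset.mul_sum]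
    _ ≤ (2 ^ M) ^ (4 ^ M) * ((Z + 1) * T) := by
        apply mul_le_mul_of_nonneg_left _ (by positivity)
        have : (0 : ℝ) ≤ T := Nat.cast_nonneg _
        linarith
    _ = _ := by ring

lemma sum_natAbs (F : ℕ → ℝ) (V : ℕ) :
    ∑ v ∈ Icc (-(V : ℤ)) V, F v.natAbs = F 0 + 2 * ∑ n ∈ Icc 1 V, F n := by
  induction V with
  | zero => simp
  | succ n ih =>
    have h1 : Icc (-((n + 1 : ℕ) : ℤ)) ((n + 1 : ℕ) : ℤ) =
        insert ((n + 1 : ℕ) : ℤ) (insert (-((n + 1 : ℕ) : ℤ)) (Icc (-(n : ℤ)) n)) := by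
      ext x
      simp only [mem_Icc, mem_insert]
      push_cast
      omega
    have h2 : (-((n + 1 : ℕ) : ℤ)) ∉ Icc (-(n : ℤ)) n := by
      simp only [mem_Icc]
      push_cast
      omega
    have h3 : ((n + 1 : ℕ) : ℤ) ∉ insert (-((n + 1 : ℕ) : ℤ)) (Icc (-(n : ℤ)) n) := by
      simp only [mem_Icc, mem_insert]
      push_cast
      omega
    rw [h1, Finset.sum_insert h3, Finset.sum_insert h2, ih, Finset.sum_Icc_succ_top (by omega)]
    have h4 : ((n + 1 : ℕ) : ℤ).natAbs = n + 1 := Int.natAbs_natCast _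
    have h5 : (-((n + 1 : ℕ) : ℤ)).natAbs = n + 1 := by rw [Int.natAbs_neg, h4]
    rw [h4, h5]
    ring

/-- the box moment -/
theorem mom (k M : ℕ) : ∃ C : ℝ, 0 < C ∧ ∀ (N : ℕ), 0 < N → ∀ e : Fin k → ℤ, (∀ i, |e i| ≤ 1) →
    (∃ i, e i ≠ 0) →
    (∑ t ∈ Fintype.piFinset (fun _ : Fin k => Finset.Icc (-(N : ℤ)) N),
      (if ∑ i, e i * t i = 0 then (0 : ℝ) else
        (∏ p ∈ (∑ i, e i * t i).natAbs.primeFactors, (1 + 1 / (p : ℝ))) ^ M)) ≤
      C * (N : ℝ) ^ k := by
  classical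
  obtain ⟨K, hK, hKm⟩ := moment_one M
  refine ⟨3 ^ k * (2 * (K * (k + 1))), by positivity, ?_⟩
  intro N hN e he ⟨i₀, hi₀⟩
  obtain ⟨F, hF⟩ : ∃ F : ℕ → ℝ, ∀ n, F n = if n = 0 then (0 : ℝ) else
        (∏ p ∈ n.primeFactors, (1 + 1 / (p : ℝ))) ^ M := ⟨_, fun _ => rfl⟩
  have hF0 : F 0 = 0 := by rw [hF, if_pos rfl]
  have hFnn : ∀ n, 0 ≤ F n := by
    intro n
    rw [hF]
    split_ifs
    · exact le_rfl
    · exact pow_nonneg (Finset.prod_nonneg fun p _ => by positivity) _
  have hterm : ∀ t : Fin k → ℤ, (if ∑ i, e i * t i = 0 then (0 : ℝ) else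
        (∏ p ∈ (∑ i, e i * t i).natAbs.primeFactors, (1 + 1 / (p : ℝ))) ^ M) =
      F (∑ i, e i * t i).natAbs := by
    intro t
    rw [hF]
    by_cases h : ∑ i, e i * t i = 0
    · rw [if_pos h, if_pos (by rw [h]; rfl)]
    · rw [if_neg h, if_neg (by rw [Int.natAbs_eq_zero]; exact h)]
  rw [Finset.sum_congr rfl (fun t _ => hterm t)]
  have hei : e i₀ * e i₀ = 1 := by
    have h1 := abs_le.1 (he i₀)
    have h2 : e i₀ = 1 ∨ e i₀ = -1 := by omega
    rcases h2 with h2 | h2 <;> rw [h2] <;> norm_num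
  -- the injection
  set B : Finset (Fin k → ℤ) := Fintype.piFinset (fun i : Fin k =>
    if i = i₀ then ({0} : Finset ℤ) else Finset.Icc (-(N : ℤ)) N) with hB
  set V : Finset ℤ := Icc (-((k * N : ℕ) : ℤ)) ((k * N : ℕ) : ℤ) with hV
  have hinj : Set.InjOn (fun t : Fin k → ℤ => (Function.update t i₀ 0, ∑ i, e i * t i))
      ((Fintype.piFinset (fun _ : Fin k => Finset.Icc (-(N : ℤ)) N) : Finset (Fin k → ℤ)) :
        Set (Fin k → ℤ)) := by
    intro t _ s _ hts
    simp only [Prod.mk.injEq] at hts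
    obtain ⟨h1, h2⟩ := hts
    have h3 : ∀ j, j ≠ i₀ → t j = s j := by
      intro j hj
      have := congrFun h1 j
      rwa [Function.update_of_ne hj, Function.update_of_ne hj] at this
    funext j
    by_cases hj : j = i₀
    · subst hj
      rw [← Finset.add_sum_erase Finset.univ (fun i => e i * t i) (Finset.mem_univ j),
        ← Finset.add_sum_erase Finset.univ (fun i => e i * s i) (Finset.mem_univ j)] at h2
      have h4 : ∑ i ∈ Finset.univ.erase j, e i * t i = ∑ i ∈ Finset.univ.erase j, e i * s i := by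
        refine Finset.sum_congr rfl fun i hi => ?_
        rw [h3 i (Finset.ne_of_mem_erase hi)]
      rw [h4] at h2
      have h5 : e j * t j = e j * s j := by linarith
      have h6 : e j * (e j * t j) = e j * (e j * s j) := by rw [h5]
      rw [← mul_assoc, ← mul_assoc, hei, one_mul, one_mul] at h6
      exact h6
    · exact h3 j hj
  have hsub : (Fintype.piFinset (fun _ : Fin k => Finset.Icc (-(N : ℤ)) N)).image
      (fun t : Fin k → ℤ => (Function.update t i₀ 0, ∑ i, e i * t i)) ⊆ B ×ˢ V := by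
    intro x hx
    rw [Finset.mem_image] at hx
    obtain ⟨t, ht, rfl⟩ := hx
    rw [Fintype.mem_piFinset] at ht
    rw [Finset.mem_product]
    refine ⟨?_, ?_⟩
    · rw [hB, Fintype.mem_piFinset]
      intro i
      by_cases hi : i = i₀
      · subst hi
        simp
      · rw [if_neg hi]
        simp only
        rw [Function.update_of_ne hi]
        exact ht i
    · rw [hV, Finset.mem_Icc]
      simp only
      rw [← abs_le]
      calc |∑ i, e i * t i| ≤ ∑ i, |e i * t i| := Finset.abs_sum_le_sum_abs _ _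
        _ ≤ ∑ i : Fin k, (N : ℤ) := by
          refine Finset.sum_le_sum fun i _ => ?_
          have h1 := ht i
          rw [Finset.mem_Icc] at h1
          rw [abs_mul]
          have h2 : |t i| ≤ N := abs_le.2 h1
          calc |e i| * |t i| ≤ 1 * N := mul_le_mul (he i) h2 (abs_nonneg _) (by norm_num)
            _ = N := one_mul _
        _ = ((k * N : ℕ) : ℤ) := by
          rw [Finset.sum_const, Finset.card_univ, Fintype.card_fin]
          push_cast
          rw [nsmul_eq_mul]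
  have h1 : ∑ t ∈ Fintype.piFinset (fun _ : Fin k => Finset.Icc (-(N : ℤ)) N),
      F (∑ i, e i * t i).natAbs ≤ ∑ x ∈ B ×ˢ V, F x.2.natAbs := by
    have h2 : ∑ t ∈ Fintype.piFinset (fun _ : Fin k => Finset.Icc (-(N : ℤ)) N),
        F (∑ i, e i * t i).natAbs =
        ∑ x ∈ (Fintype.piFinset (fun _ : Fin k => Finset.Icc (-(N : ℤ)) N)).image
          (fun t : Fin k → ℤ => (Function.update t i₀ 0, ∑ i, e i * t i)), F x.2.natAbs := by
      rw [Finset.sum_image hinj]
    rw [h2]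
    exact Finset.sum_le_sum_of_subset_of_nonneg hsub fun _ _ _ => hFnn _
  refine h1.trans ?_
  have hprod : ∑ x ∈ B ×ˢ V, F x.2.natAbs = (B.card : ℝ) * ∑ v ∈ V, F v.natAbs := by
    rw [Finset.sum_product]
    simp only
    rw [Finset.sum_const, nsmul_eq_mul]
  rw [hprod, hV, sum_natAbs, hF0, zero_add]
  have hBcard : (B.card : ℝ) ≤ (3 * N) ^ (k - 1) := by
    rw [hB, Fintype.card_piFinset, ← Finset.mul_prod_erase Finset.univ _ (Finset.mem_univ i₀),
      if_pos rfl, Finset.card_singleton, one_mul]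
    have h2 : ∏ i ∈ Finset.univ.erase i₀,
        (if i = i₀ then ({0} : Finset ℤ) else Finset.Icc (-(N : ℤ)) N).card =
        (2 * N + 1) ^ (k - 1) := by
      rw [Finset.prod_congr rfl (g := fun _ => 2 * N + 1)]
      · rw [Finset.prod_const, Finset.card_erase_of_mem (Finset.mem_univ i₀), Finset.card_univ,
          Fintype.card_fin]
      · intro i hi
        rw [if_neg (Finset.ne_of_mem_erase hi), Int.card_Icc]
        omega
    rw [h2]
    push_cast
    apply pow_le_pow_left₀ (by positivity)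
    have : (1 : ℝ) ≤ N := by exact_mod_cast hN
    linarith
  have hk : 0 < k := Fin.pos i₀
  have h3 : ∑ n ∈ Icc 1 (k * N), F n ≤ K * (k * N) := by
    have h4 := hKm (k * N)
    push_cast at h4
    refine le_trans (le_of_eq ?_) h4
    refine Finset.sum_congr rfl fun n hn => ?_
    rw [Finset.mem_Icc] at hn
    rw [hF, if_neg (by omega)]
  have hN1 : (1 : ℝ) ≤ N := by exact_mod_cast hN
  calc (B.card : ℝ) * (2 * ∑ n ∈ Icc 1 (k * N), F n) ≤
      (3 * N) ^ (k - 1) * (2 * (K * (k * N))) := by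
        apply mul_le_mul hBcard (by linarith) _ (by positivity)
        exact mul_nonneg (by norm_num) (Finset.sum_nonneg fun n _ => hFnn n)
    _ ≤ (3 * N) ^ (k - 1) * (2 * (K * ((k + 1) * (3 * N)))) := by
        apply mul_le_mul_of_nonneg_left _ (by positivity)
        apply mul_le_mul_of_nonneg_left _ (by norm_num)
        apply mul_le_mul_of_nonneg_left _ hK.le
        apply mul_le_mul (by linarith) (by linarith) (by positivity) (by positivity)
    _ = ((3 * N) ^ (k - 1) * (3 * N)) * (2 * (K * (k + 1))) := by ring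
    _ = (3 * N) ^ k * (2 * (K * (k + 1))) := by
        rw [← pow_succ, Nat.sub_add_cancel hk]
    _ = 3 ^ k * (2 * (K * (k + 1))) * (N : ℝ) ^ k := by
        rw [mul_pow]
        ring

end Pool.Agent.H14.T2
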