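import Pool.Agent.H24.T2.Interface
import Pool.Agent.H24.MR.Top
import Pool.Agent.H59.MR.Dens

/-!
The Matomaki-Radziwill property of the densities along ultrafilters.
-/

set_option autoImplicit false

open Finset Filter Topology

namespace Pool.Agent.H14.T2

open Pool.Agent.H24.MR
open Pool.Agent.H24.T2
open Pool.Agent.H59.MR (ratio tendsto_dens)

theorem mrprop_dens {U : Ultrafilter ℕ} {N : ℕ → ℕ} (hN : Tendsto N (U : Filter ℕ) atTop) :
    MRprop (dens U N) := by
  classical
  intro W b ε hW hε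
  obtain ⟨h₀, hh₀⟩ := mr W (b % W) (ε ^ 3 / 2) hW (by positivity)
  refine ⟨h₀ + 1, fun h hh => ?_⟩
  obtain ⟨N₀, hN₀⟩ := hh₀ h (by omega)
  have hhr : (0 : ℝ) < h := by exact_mod_cast (by omega : 0 < h)
  set E : Set ℕ := {z | z ≡ b [MOD W] ∧ ε * h ≤ |∑ y ∈ Finset.range h, lam (z + W * y)|} with hE
  refine le_of_tendsto (tendsto_dens U N E) ?_
  filter_upwards [hN.eventually (eventually_ge_atTop (W * (N₀ + 1)))] with k hk
  set M := N k / W + 1 with hM
  have hMN : N₀ ≤ M := by
    have : N₀ + 1 ≤ N k / W := (Nat.le_div_iff_mul_le hW).2 (by rw [mul_comm]; exact hk)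
    omega
  have hNk : 0 < N k := lt_of_lt_of_le (by positivity) hk
  have hMk : M ≤ 2 * N k := by
    have := Nat.div_le_self (N k) W
    omega
  have hb : b % W < W := Nat.mod_lt _ hW
  set T : Finset ℕ := (Finset.range M).filter fun z =>
    ε * h ≤ |∑ y ∈ Finset.range h, lam (W * (z + y) + b % W)| with hT
  have hcard : ((Finset.range (N k)).filter fun m => m ∈ E).card ≤ T.card := by
    refine Finset.card_le_card_of_injOn (fun z => z / W) ?_ ?_
    · intro z hz
      rw [Finset.mem_coe, mem_filter, mem_range, hE] at hz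
      obtain ⟨hz1, hz2, hz3⟩ := hz
      rw [Finset.mem_coe, hT, mem_filter, mem_range]
      have h1 : z % W = b % W := hz2
      have h2 : W * (z / W) + b % W = z := by rw [← h1]; exact Nat.div_add_mod z W
      refine ⟨?_, ?_⟩
      · have : z / W ≤ N k / W := Nat.div_le_div_right hz1.le
        change z / W < M
        omega
      · change ε * h ≤ |∑ y ∈ Finset.range h, lam (W * (z / W + y) + b % W)|
        have h3 : ∀ y, W * (z / W + y) + b % W = z + W * y := by
          intro y
          calc W * (z / W + y) + b % W = (W * (z / W) + b % W) + W * y := by ring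
            _ = z + W * y := by rw [h2]
        simp only [h3]
        exact hz3
    · intro y hy z hz hyz
      rw [Finset.mem_coe, mem_filter, hE] at hy hz
      have hyz' : y / W = z / W := hyz
      have h1 : y % W = b % W := hy.2.1
      have h2 : z % W = b % W := hz.2.1
      rw [← Nat.div_add_mod y W, ← Nat.div_add_mod z W, h1, h2, hyz']
  have hsq : (T.card : ℝ) * (ε * h) ^ 2 ≤ ε ^ 3 / 2 * h ^ 2 * M := by
    refine le_trans ?_ (hN₀ M hMN)
    have h1 : (T.card : ℝ) * (ε * h) ^ 2 = ∑ z ∈ T, (ε * h) ^ 2 := by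
      rw [Finset.sum_const, nsmul_eq_mul]
    rw [h1]
    have h2 : ∑ z ∈ T, (∑ y ∈ Finset.range h, lam (W * (z + y) + b % W)) ^ 2 ≤
        ∑ z ∈ Finset.range M, (∑ y ∈ Finset.range h, lam (W * (z + y) + b % W)) ^ 2 :=
      Finset.sum_le_sum_of_subset_of_nonneg (Finset.filter_subset _ _) fun _ _ _ => sq_nonneg _
    refine le_trans ?_ h2
    refine Finset.sum_le_sum fun z hz => ?_
    rw [hT, mem_filter] at hz
    rw [← sq_abs (∑ y ∈ Finset.range h, lam (W * (z + y) + b % W))]
    exact pow_le_pow_left₀ (by positivity) hz.2 2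
  have hfin : (T.card : ℝ) ≤ ε * N k := by
    have h1 : (0 : ℝ) < (ε * h) ^ 2 := by positivity
    have h2 : (M : ℝ) ≤ 2 * N k := by exact_mod_cast hMk
    refine le_of_mul_le_mul_right ?_ h1
    refine hsq.trans ?_
    calc ε ^ 3 / 2 * (h : ℝ) ^ 2 * M ≤ ε ^ 3 / 2 * (h : ℝ) ^ 2 * (2 * N k) := by gcongr
      _ = ε * N k * (ε * h) ^ 2 := by ring
  unfold ratio
  have hNk' : (0 : ℝ) < N k := by exact_mod_cast hNk
  rw [div_le_iff₀ hNk']
  refine le_trans (Nat.cast_le.2 ?_) hfin
  convert hcard

end Pool.Agent.H14.T2
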