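import Pool.Agent.H14.T2.Mrd
import Pool.Agent.H14.T2.LocFun

/-!
Natural density front end of the project T2 on `MP_c59857_nt`.
-/

set_option autoImplicit false

open Finset Filter Topology

namespace Pool.Agent.H14.T2

open Pool.Agent.H24.MR
open Pool.Agent.H24.T2
open Pool.Agent.H27.MR (WW WW_pos le_WW sq_dvd_WW dvd_WW_iff dens_le_of_bound)
open Pool.Agent.H59.MR (ratio tendsto_dens finAddInv_dens fai_mono fai_union_le fai_shift'
  fai_empty)

/-- subadditivity over a finite family -/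
lemma fai_biUnion_le {μ : Set ℕ → ℝ} (h : FinAddInv μ) {ι : Type*} (s : Finset ι)
    (A : ι → Set ℕ) : μ {n | ∃ i ∈ s, n ∈ A i} ≤ ∑ i ∈ s, μ (A i) := by
  classical
  induction s using Finset.induction_on with
  | empty => simp [fai_empty h]
  | insert a s ha ih =>
    rw [Finset.sum_insert ha]
    refine le_trans ?_ (add_le_add_right ih _)
    refine le_trans ?_ (fai_union_le h _ _)
    apply fai_mono h
    rintro n ⟨i, hi, hn⟩
    rcases Finset.mem_insert.1 hi with rfl | hi
    · exact Or.inl hn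
    · exact Or.inr ⟨i, hi, hn⟩

/-- the completely multiplicative function at a prime multiple -/
lemma lam_prime_mul {p n : ℕ} (hp : p.Prime) (hn : n ≠ 0) : lam (p * n) = - lam n := by
  unfold lam
  rw [ArithmeticFunction.cardFactors_mul hp.ne_zero hn,
    ArithmeticFunction.cardFactors_apply_prime hp, pow_add]
  ring

open Classical in
/-- initial segments are null -/
lemma dens_Iic {U : Ultrafilter ℕ} {N : ℕ → ℕ} (hN : Tendsto N (U : Filter ℕ) atTop) (C : ℕ) :
    dens U N (Set.Iic C) = 0 := by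
  refine le_antisymm ?_ ((finAddInv_dens hN).nonneg _)
  obtain ⟨A, hA⟩ : ∃ A : Set ℕ, A = Set.Iic C := ⟨_, rfl⟩
  rw [← hA]
  refine dens_le_of_bound hN A ∅ (fai_empty (finAddInv_dens hN)) 0 0 (C + 1) 0 0
    le_rfl fun n => ?_
  have h1 : ((range n).filter fun m => m ∈ A).card ≤ C + 1 := by
    refine (Finset.card_le_card (t := range (C + 1)) ?_).trans (by simp)
    intro m hm
    rw [mem_filter, hA, Set.mem_Iic] at hm
    rw [mem_range]
    omega
  have h2 : (((range n).filter fun m => m ∈ A).card : ℝ) ≤ C + 1 := by exact_mod_cast h1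
  linarith

open Classical in
/-- the set of `y` with `y / p + t ∈ A` and `p ∣ y + 1` -/
lemma dens_edge {U : Ultrafilter ℕ} {N : ℕ → ℕ} (hN : Tendsto N (U : Filter ℕ) atTop)
    (B : Set ℕ) (hB : dens U N B = 0) (p t : ℕ) (hp : 0 < p) :
    dens U N {y | p ∣ y + 1 ∧ y / p + t ∈ B} = 0 := by
  refine le_antisymm ?_ ((finAddInv_dens hN).nonneg _)
  obtain ⟨A, hA⟩ : ∃ A : Set ℕ, A = {y | p ∣ y + 1 ∧ y / p + t ∈ B} := ⟨_, rfl⟩
  rw [← hA]
  refine dens_le_of_bound hN A B hB 0 1 t 0 0 le_rfl fun n => ?_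
  have h1 : ((range n).filter fun m => m ∈ A).card ≤
      ((range (n + t)).filter fun m => m ∈ B).card := by
    refine Finset.card_le_card_of_injOn (fun y => y / p + t) ?_ ?_
    · intro y hy
      rw [Finset.mem_coe, mem_filter, mem_range, hA] at hy
      rw [Finset.mem_coe, mem_filter, mem_range]
      have := Nat.div_le_self y p
      exact ⟨by change y / p + t < _; omega, hy.2.2⟩
    · intro y hy z hz hyz
      rw [Finset.mem_coe, mem_filter, hA] at hy hz
      obtain ⟨-, ⟨u, hu⟩, -⟩ := hy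
      obtain ⟨-, ⟨v, hv⟩, -⟩ := hz
      have h2 : y / p + t = z / p + t := hyz
      have hu0 : 0 < u := Nat.pos_of_ne_zero (by rintro rfl; simp at hu)
      have hv0 : 0 < v := Nat.pos_of_ne_zero (by rintro rfl; simp at hv)
      obtain ⟨u', rfl⟩ : ∃ u', u = u' + 1 := ⟨u - 1, by omega⟩
      obtain ⟨v', rfl⟩ : ∃ v', v = v' + 1 := ⟨v - 1, by omega⟩
      have h3 : y = p * u' + (p - 1) := by
        have : p * (u' + 1) = p * u' + p := by ring
        omega
      have h4 : z = p * v' + (p - 1) := by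
        have : p * (v' + 1) = p * v' + p := by ring
        omega
      have h5 : y / p = u' := by
        rw [h3, Nat.mul_add_div hp, Nat.div_eq_of_lt (by omega), add_zero]
      have h6 : z / p = v' := by
        rw [h4, Nat.mul_add_div hp, Nat.div_eq_of_lt (by omega), add_zero]
      have h7 : u' = v' := by omega
      rw [h3, h4, h7]
  have h2 : ((range (n + t)).filter fun m => m ∈ B).card ≤
      ((range n).filter fun m => m ∈ B).card + t := by
    have h3 : (range (n + t)).filter (fun m => m ∈ B) ⊆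
        (range n).filter (fun m => m ∈ B) ∪ Finset.Ico n (n + t) := by
      intro m hm
      rw [mem_filter, mem_range] at hm
      rw [mem_union, mem_filter, mem_range, Finset.mem_Ico]
      by_cases h4 : m < n
      · exact Or.inl ⟨h4, hm.2⟩
      · exact Or.inr ⟨by omega, hm.1⟩
    refine (Finset.card_le_card h3).trans ((Finset.card_union_le _ _).trans ?_)
    rw [Nat.card_Ico]
    omega
  have h3 : (((range n).filter fun m => m ∈ A).card : ℝ) ≤
      ((range n).filter fun m => m ∈ B).card + t := by exact_mod_cast h1.trans h2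
  linarith

open Classical in
/-- the density of dilates of a shifted set -/
lemma dens_dilate {U : Ultrafilter ℕ} {N : ℕ → ℕ} (hN : Tendsto N (U : Filter ℕ) atTop)
    (Z : Set ℕ) (p t C : ℕ) (κ c : ℝ) (hκ : 0 ≤ κ) (hc : 0 ≤ c) (hp : 0 < p)
    (hZ : ∀ M : ℕ, (((range M).filter fun m => m ∈ Z).card : ℝ) ≤
      κ * M + c * (Nat.sqrt (M + C) : ℝ)) :
    dens U N {y | p ∣ y ∧ (y / p + t ≤ C ∨ y / p + t ∈ Z)} ≤ κ / p := by
  have hpr : (0 : ℝ) < p := by exact_mod_cast hp
  obtain ⟨A, hA⟩ : ∃ A : Set ℕ, A = {y | p ∣ y ∧ (y / p + t ≤ C ∨ y / p + t ∈ Z)} := ⟨_, rfl⟩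
  rw [← hA]
  refine dens_le_of_bound hN A ∅ (fai_empty (finAddInv_dens hN)) (κ / p) 0
    (κ * (t + 1) + (C + 1)) c (C + t + 1) hc fun n => ?_
  have h1 : ((range n).filter fun m => m ∈ A).card ≤
      ((range (n / p + 1 + t)).filter fun m => m ∈ Z).card + (C + 1) := by
    have h2 : ((range n).filter fun m => m ∈ A).card ≤
        ((range (n / p + 1 + t)).filter (fun m => m ∈ Z) ∪ range (C + 1)).card := by
      refine Finset.card_le_card_of_injOn (fun y => y / p + t) ?_ ?_
      · intro y hy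
        rw [Finset.mem_coe, mem_filter, mem_range, hA] at hy
        obtain ⟨hy1, hy2, hy3⟩ := hy
        rw [Finset.mem_coe, mem_union, mem_filter, mem_range, mem_range]
        rcases hy3 with hy3 | hy3
        · right
          change y / p + t < C + 1
          omega
        · left
          have : y / p ≤ n / p := Nat.div_le_div_right hy1.le
          exact ⟨by change y / p + t < _; omega, hy3⟩
      · intro y hy z hz hyz
        rw [Finset.mem_coe, mem_filter, hA] at hy hz
        have h2 : y / p + t = z / p + t := hyz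
        rw [← Nat.mul_div_cancel' hy.2.1, ← Nat.mul_div_cancel' hz.2.1]
        congr 1
        omega
    refine h2.trans ((Finset.card_union_le _ _).trans ?_)
    rw [Finset.card_range]
  have h3 : (((range n).filter fun m => m ∈ A).card : ℝ) ≤
      ((range (n / p + 1 + t)).filter fun m => m ∈ Z).card + (C + 1) := by exact_mod_cast h1
  have h4 := hZ (n / p + 1 + t)
  have h5 : ((n / p + 1 + t : ℕ) : ℝ) ≤ n / p + (t + 1) := by
    push_cast
    have : ((n / p : ℕ) : ℝ) ≤ n / p := Nat.cast_div_le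
    linarith
  have h6 : κ * ((n / p + 1 + t : ℕ) : ℝ) ≤ κ / p * n + κ * (t + 1) := by
    calc κ * ((n / p + 1 + t : ℕ) : ℝ) ≤ κ * (n / p + (t + 1)) := mul_le_mul_of_nonneg_left h5 hκ
      _ = κ / p * n + κ * (t + 1) := by ring
  have h7 : (Nat.sqrt (n / p + 1 + t + C) : ℝ) ≤ (Nat.sqrt (n + (C + t + 1)) : ℝ) := by
    have := Nat.div_le_self n p
    exact_mod_cast Nat.sqrt_le_sqrt (by omega)
  have h8 := mul_le_mul_of_nonneg_left h7 hc
  linarith

open Classical in
theorem scf : StatementSCF := by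
  intro hLOC r α ε q n₀ hα hε hodd hq hn₀
  by_contra hcon
  push Not at hcon
  -- sign change sets
  obtain ⟨P, hP⟩ : ∃ P : ℕ → Prop, ∀ i, P i ↔ (i ≡ n₀ [MOD q] ∧ Fr α ε i ≠ 0) :=
    ⟨fun i => i ≡ n₀ [MOD q] ∧ Fr α ε i ≠ 0, fun _ => Iff.rfl⟩
  obtain ⟨E, hE⟩ : ∃ E : ℕ → Set ℕ, ∀ h n, n ∈ E h ↔
      ((∃ i ∈ Finset.Icc n (n + h), i ≡ n₀ [MOD q] ∧ Fr α ε i = 1) ∧
        (∃ j ∈ Finset.Icc n (n + h), j ≡ n₀ [MOD q] ∧ Fr α ε j = -1)) :=
    ⟨fun h => {n | (∃ i ∈ Finset.Icc n (n + h), i ≡ n₀ [MOD q] ∧ Fr α ε i = 1) ∧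
        (∃ j ∈ Finset.Icc n (n + h), j ≡ n₀ [MOD q] ∧ Fr α ε j = -1)}, fun _ _ => Iff.rfl⟩
  have hEmono : ∀ h h', h ≤ h' → E h ⊆ E h' := by
    intro h h' hh n hn
    rw [hE] at hn ⊢
    obtain ⟨⟨i, hi, h1⟩, ⟨j, hj, h2⟩⟩ := hn
    rw [Finset.mem_Icc] at hi hj
    exact ⟨⟨i, by rw [Finset.mem_Icc]; omega, h1⟩, ⟨j, by rw [Finset.mem_Icc]; omega, h2⟩⟩
  have hex : ∀ j : ℕ, ∃ N : ℕ, j ≤ N ∧
      (((Finset.Icc 1 N).filter (fun n : ℕ => n ∈ E j)).card : ℝ) < 1 / ((j : ℝ) + 1) * N := by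
    intro j
    have h1 := hcon j (1 / ((j : ℝ) + 1)) (by positivity)
    obtain ⟨N, hN1, hN2⟩ := (Filter.frequently_atTop.1 h1) j
    refine ⟨N, hN1, ?_⟩
    have h3 : (Finset.Icc 1 N).filter (fun n : ℕ => n ∈ E j) =
        (Finset.Icc 1 N).filter (fun n : ℕ =>
          (∃ i ∈ Finset.Icc n (n + j), i ≡ n₀ [MOD q] ∧ Fr α ε i = 1) ∧
          (∃ j' ∈ Finset.Icc n (n + j), j' ≡ n₀ [MOD q] ∧ Fr α ε j' = -1)) := by
      ext n
      simp only [mem_filter, hE]
    rw [h3]
    convert hN2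
  choose N hN1 hN2 using hex
  obtain ⟨U, hUle⟩ : ∃ U : Ultrafilter ℕ, (U : Filter ℕ) ≤ atTop := by
    refine ⟨Filter.hyperfilter ℕ, ?_⟩
    rw [← Nat.cofinite_eq_atTop]
    exact Filter.hyperfilter_le_cofinite
  have hNt : Tendsto N atTop atTop := tendsto_atTop_mono hN1 tendsto_id
  have hNU : Tendsto N (U : Filter ℕ) atTop := hNt.mono_left hUle
  have hμ : FinAddInv (dens U N) := finAddInv_dens hNU
  -- the sign change sets are null
  have hE0 : ∀ h, dens U N (E h) = 0 := by
    intro h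
    refine le_antisymm ?_ (hμ.nonneg _)
    have ht : Tendsto (fun j : ℕ => 3 * (1 / ((j : ℝ) + 1))) (U : Filter ℕ) (𝓝 (3 * 0)) :=
      ((tendsto_one_div_add_atTop_nhds_zero_nat (𝕜 := ℝ)).mono_left hUle).const_mul 3
    rw [mul_zero] at ht
    refine le_of_tendsto_of_tendsto (tendsto_dens U N (E h)) ht ?_
    filter_upwards [hUle (eventually_ge_atTop (h + 1))] with j hj
    unfold ratio
    have hNj : j ≤ N j := hN1 j
    have hNj0 : (0 : ℝ) < N j := by exact_mod_cast (by omega : 0 < N j)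
    rw [div_le_iff₀ hNj0]
    have h2 : ((Finset.range (N j)).filter (fun m => m ∈ E h)).card ≤
        1 + ((Finset.Icc 1 (N j)).filter (fun n : ℕ => n ∈ E j)).card := by
      have h3 : (Finset.range (N j)).filter (fun m => m ∈ E h) ⊆
          {0} ∪ (Finset.Icc 1 (N j)).filter (fun n : ℕ => n ∈ E j) := by
        intro m hm
        rw [mem_filter, mem_range] at hm
        rw [mem_union, mem_singleton, mem_filter, Finset.mem_Icc]
        rcases Nat.eq_zero_or_pos m with h4 | h4
        · exact Or.inl h4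
        · exact Or.inr ⟨⟨h4, hm.1.le⟩, hEmono h j (by omega) hm.2⟩
      refine (Finset.card_le_card h3).trans ((Finset.card_union_le _ _).trans ?_)
      rw [Finset.card_singleton]
    have h3 : (((Finset.range (N j)).filter (fun m => m ∈ E h)).card : ℝ) ≤
        1 + (((Finset.Icc 1 (N j)).filter (fun n : ℕ => n ∈ E j)).card : ℝ) := by
      exact_mod_cast h2
    have h4 := (hN2 j).le
    have h5 : (1 : ℝ) ≤ 2 * (1 / ((j : ℝ) + 1) * N j) := by
      have h6 : ((j : ℝ) + 1) ≤ 2 * N j := by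
        have : j + 1 ≤ 2 * N j := by omega
        exact_mod_cast this
      have h7 : (0 : ℝ) < (j : ℝ) + 1 := by positivity
      have h8 : 2 * (1 / ((j : ℝ) + 1) * N j) = (2 * N j) / ((j : ℝ) + 1) := by
        ring
      rw [h8, le_div_iff₀ h7]
      linarith
    calc (((Finset.range (N j)).filter (fun m => m ∈ E h)).card : ℝ) ≤
        1 + (((Finset.Icc 1 (N j)).filter (fun n : ℕ => n ∈ E j)).card : ℝ) := h3
      _ ≤ 3 * (1 / ((j : ℝ) + 1)) * N j := by linarith
  -- zeros
  obtain ⟨C, hC⟩ : ∃ C : ℕ, ∀ i, |α i| ≤ C := by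
    refine ⟨∑ i, (α i).natAbs, fun i => ?_⟩
    have h1 : (α i).natAbs ≤ ∑ i, (α i).natAbs :=
      Finset.single_le_sum (fun j _ => Nat.zero_le ((α j).natAbs)) (Finset.mem_univ i)
    rw [← Int.natCast_natAbs]
    exact_mod_cast h1
  have hFr : ∀ n, P n → Fr α ε n = 1 ∨ Fr α ε n = -1 := by
    intro n hn
    rcases Fr_or α ε n with h1 | h1 | h1
    · exact absurd h1 ((hP n).1 hn).2
    · exact Or.inl h1
    · exact Or.inr h1
  obtain ⟨Z, hZ⟩ : ∃ Z : ℕ → Set ℕ, ∀ w m, m ∈ Z w ↔
      (C < m ∧ m ≡ n₀ [MOD WW q w] ∧ Fr α ε m = 0) :=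
    ⟨fun w => {m | C < m ∧ m ≡ n₀ [MOD WW q w] ∧ Fr α ε m = 0}, fun _ _ => Iff.rfl⟩
  have hZcard : ∀ w, 0 < w → q ≤ w → ∀ M : ℕ,
      (((Finset.range M).filter (fun m => m ∈ Z w)).card : ℝ) ≤
      (r / (w * WW q w)) * M + r * (Nat.sqrt (M + C) : ℝ) := by
    intro w hw hqw M
    have h1 := card_zero_le α ε hε q n₀ w C hq hw hqw hn₀ hC M
    have h2 : (Finset.range M).filter (fun m => m ∈ Z w) = (Finset.range M).filter
      (fun m => (C < m ∧ m ≡ n₀ [MOD WW q w] ∧ Fr α ε m = 0)) := by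
      ext n
      simp only [mem_filter, hZ]
    rw [h2]
    refine h1.trans (le_of_eq ?_)
    have h3 : (w : ℝ) ≠ 0 := by exact_mod_cast hw.ne'
    have h4 : (WW q w : ℝ) ≠ 0 := by exact_mod_cast (WW_pos hq w).ne'
    field_simp
  have hZdens : ∀ w, 0 < w → q ≤ w → dens U N (Z w) ≤ r / (w * WW q w) := by
    intro w hw hqw
    refine dens_le_of_bound hNU (Z w) ∅ (fai_empty hμ) _ 0 0 r C (by positivity) fun n => ?_
    have := hZcard w hw hqw n
    linarith
  -- the changes of the location function are null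
  obtain ⟨s, hs⟩ : ∃ s, s = sfun P (Fr α ε) := ⟨_, rfl⟩
  obtain ⟨B, hB⟩ : ∃ B : Set ℕ, ∀ n, n ∈ B ↔ s n ≠ s (n + 1) :=
    ⟨{n | s n ≠ s (n + 1)}, fun _ => Iff.rfl⟩
  have hgap : ∀ w, 0 < w → q ≤ w →
      dens U N {n | ∀ j ∈ Finset.Icc 1 (WW q w), ¬ P (n + j)} ≤ r / w := by
    intro w hw hqw
    have hWpos := WW_pos hq w
    have hsub : {n | ∀ j ∈ Finset.Icc 1 (WW q w), ¬ P (n + j)} ⊆
        Set.Iic C ∪ {n | ∃ j ∈ Finset.Icc 1 (WW q w), n ∈ {n | n + j ∈ Z w}} := by
      intro n hn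
      by_cases hnC : n ≤ C
      · exact Or.inl hnC
      right
      obtain ⟨j, hj, hjm⟩ : ∃ j ∈ Finset.Icc 1 (WW q w), n + j ≡ n₀ [MOD WW q w] := by
        refine ⟨WW q w - (n + WW q w * n₀ - n₀) % WW q w, ?_, ?_⟩
        · have := Nat.mod_lt (n + WW q w * n₀ - n₀) hWpos
          rw [Finset.mem_Icc]
          omega
        · have h1 := Nat.mod_lt (n + WW q w * n₀ - n₀) hWpos
          have h2 := Nat.div_add_mod (n + WW q w * n₀ - n₀) (WW q w)
          have h3 : n₀ ≤ WW q w * n₀ := Nat.le_mul_of_pos_left _ hWpos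
          rw [← Int.natCast_modEq_iff, Int.modEq_iff_dvd]
          have h4 : ((WW q w - (n + WW q w * n₀ - n₀) % WW q w : ℕ) : ℤ) =
              WW q w - ((n + WW q w * n₀ - n₀) % WW q w : ℕ) := by
            rw [Nat.cast_sub h1.le]
          have h5 : ((n + WW q w * n₀ - n₀ : ℕ) : ℤ) = n + WW q w * n₀ - n₀ := by
            rw [Nat.cast_sub (by omega)]
            push_cast
            ring
          have h6 : ((WW q w : ℕ) : ℤ) * ((n + WW q w * n₀ - n₀) / WW q w : ℕ) +
              ((n + WW q w * n₀ - n₀) % WW q w : ℕ) = n + WW q w * n₀ - n₀ := by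
            rw [← h5]
            exact_mod_cast h2
          refine ⟨n₀ - 1 - ((n + WW q w * n₀ - n₀) / WW q w : ℕ), ?_⟩
          rw [Nat.cast_add, h4]
          linear_combination h6
      refine ⟨j, hj, ?_⟩
      have h1 := hn j hj
      have h2 : n + j ≡ n₀ [MOD q] := hjm.of_dvd ⟨primorial w ^ 2, rfl⟩
      change n + j ∈ Z w
      rw [hZ]
      refine ⟨by omega, hjm, ?_⟩
      by_contra h3
      exact h1 ((hP _).2 ⟨h2, h3⟩)
    refine (fai_mono hμ hsub).trans ((fai_union_le hμ _ _).trans ?_)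
    rw [dens_Iic hNU, zero_add]
    refine (fai_biUnion_le hμ _ _).trans ?_
    have h1 : ∀ j ∈ Finset.Icc 1 (WW q w), dens U N {n | n + j ∈ Z w} ≤ r / (w * WW q w) := by
      intro j _
      rw [fai_shift' hμ]
      exact hZdens w hw hqw
    refine (Finset.sum_le_sum h1).trans ?_
    rw [Finset.sum_const, Nat.card_Icc, Nat.add_sub_cancel, nsmul_eq_mul]
    have h3 : (w : ℝ) ≠ 0 := by exact_mod_cast hw.ne'
    have h4 : (WW q w : ℝ) ≠ 0 := by exact_mod_cast (WW_pos hq w).ne'
    apply le_of_eq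
    field_simp
  have hB0 : dens U N B = 0 := by
    refine le_antisymm ?_ (hμ.nonneg _)
    refine le_of_forall_pos_le_add fun e he => ?_
    rw [zero_add]
    obtain ⟨w, hw⟩ := exists_nat_gt (max (r / e) q : ℝ)
    have hw1 : (r : ℝ) / e < w := lt_of_le_of_lt (le_max_left _ _) hw
    have hw2 : q < w := by exact_mod_cast lt_of_le_of_lt (le_max_right _ _) hw
    have hw0 : (0 : ℝ) < w := by exact_mod_cast (by omega : 0 < w)
    have hsub : B ⊆ E (WW q w) ∪ {n | ∀ j ∈ Finset.Icc 1 (WW q w), ¬ P (n + j)} := by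
      intro n hn
      rw [hB, hs] at hn
      rcases sfun_change (h := WW q w) hFr hn with ⟨⟨i, hi, h1, h2⟩, ⟨j, hj, h3, h4⟩⟩ | h1
      · left
        rw [hE]
        exact ⟨⟨i, hi, ((hP i).1 h1).1, h2⟩, ⟨j, hj, ((hP j).1 h3).1, h4⟩⟩
      · right
        exact h1
    refine (fai_mono hμ hsub).trans ((fai_union_le hμ _ _).trans ?_)
    rw [hE0, zero_add]
    refine (hgap w (by omega) hw2.le).trans ?_
    rw [div_le_iff₀ hw0]
    rw [div_lt_iff₀ he] at hw1
    linarith
  -- the local contradiction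
  obtain ⟨k, hk⟩ : ∃ k, k = ((Finset.univ : Finset (Fin r)).filter (fun i => Odd (ε i))).card :=
    ⟨_, rfl⟩
  have hk0 : 0 < k := by
    rw [hk, Finset.card_pos]
    obtain ⟨i, hi⟩ := hodd
    exact ⟨i, by rw [mem_filter]; exact ⟨Finset.mem_univ i, hi⟩⟩
  obtain ⟨η, hη, hloc⟩ := hLOC k 1 hk0 one_pos
  obtain ⟨w, hw⟩ := exists_nat_gt (max (r / η) (max q 2) : ℝ)
  have hw1 : (r : ℝ) / η < w := lt_of_le_of_lt (le_max_left _ _) hw
  have hw2 : q < w := by
    exact_mod_cast lt_of_le_of_lt ((le_max_left (q : ℝ) 2).trans (le_max_right _ _)) hw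
  have hw3 : 2 < w := by
    exact_mod_cast lt_of_le_of_lt ((le_max_right (q : ℝ) 2).trans (le_max_right _ _)) hw
  have hw0 : (0 : ℝ) < w := by exact_mod_cast (by omega : 0 < w)
  obtain ⟨Q, hQ⟩ : ∃ Q, Q = WW q w := ⟨_, rfl⟩
  have hQ0 : 0 < Q := hQ ▸ WW_pos hq w
  have hQr : (0 : ℝ) < Q := by exact_mod_cast hQ0
  have hQe : Even Q := by
    rw [hQ, even_iff_two_dvd]
    exact (dvd_pow_self 2 two_ne_zero).trans (sq_dvd_WW Nat.prime_two (by omega))
  have hqQ : q ∣ Q := hQ ▸ ⟨primorial w ^ 2, rfl⟩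
  obtain ⟨t, ht⟩ : ∃ t, t = Q * C := ⟨_, rfl⟩
  have htC : C ≤ t := by rw [ht]; exact Nat.le_mul_of_pos_left _ hQ0
  -- enumeration of the odd exponents
  have e := ((Finset.univ : Finset (Fin r)).filter (fun i => Odd (ε i))).equivFinOfCardEq hk.symm
  set β : Fin k → ℕ := fun i => (α (e.symm i).1 + t).toNat with hβ
  have hβα : ∀ i, (β i : ℤ) = α (e.symm i).1 + t := by
    intro i
    rw [hβ]
    have h1 := (abs_le.1 (hC (e.symm i).1)).1
    have h2 : (C : ℤ) ≤ t := by exact_mod_cast htC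
    exact Int.toNat_of_nonneg (by linarith)
  have hβinj : Function.Injective β := by
    intro i j hij
    have h1 : (β i : ℤ) = β j := by rw [hij]
    rw [hβα, hβα] at h1
    have h2 : α (e.symm i).1 = α (e.symm j).1 := by linarith
    have h3 := Subtype.ext (hα h2)
    exact e.symm.injective h3
  have hsor : ∀ n, s n = 1 ∨ s n = -1 := by
    intro n
    rw [hs]
    exact sfun_or _ _ _
  set σ : ℕ → ℕ → ℤ := fun p y => (-1) ^ k * s (y / p + t) with hσ
  have hσor : ∀ p y, σ p y = 1 ∨ σ p y = -1 := by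
    intro p y
    rw [hσ]
    rcases neg_one_pow_eq_or ℤ k with h1 | h1 <;> rcases hsor (y / p + t) with h2 | h2 <;>
      simp only [h1, h2] <;> norm_num
  refine hloc Q n₀ β hQ0 hQe hβinj (dens U N) hμ (mrprop_dens hNU) σ ?_ ?_ ?_ ?_
  · intro p y
    exact Or.inr (hσor p y)
  · intro p hp _
    refine le_antisymm ?_ (hμ.nonneg _)
    refine (fai_mono hμ ?_).trans (le_of_eq (dens_edge hNU B hB0 p t hp.pos))
    intro y hy
    change σ p y ≠ σ p (y + 1) at hy
    have h1 : (y + 1) / p = y / p + if p ∣ y + 1 then 1 else 0 := Nat.succ_div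
    by_cases h2 : p ∣ y + 1
    · rw [if_pos h2] at h1
      refine ⟨h2, ?_⟩
      rw [hB]
      intro h3
      apply hy
      rw [hσ]
      simp only
      rw [h1, h3]
      congr 2
      ring
    · rw [if_neg h2, add_zero] at h1
      exfalso
      apply hy
      rw [hσ]
      simp only
      rw [h1]
  · intro p hp _
    have h1 : {y | σ p y ≠ 0} = Set.univ := by
      ext y
      simp only [Set.mem_ofPred_eq, Set.mem_univ, iff_true]
      rcases hσor p y with h2 | h2 <;> rw [h2] <;> norm_num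
    rw [h1, hμ.univ]
  · intro p hp hpQ
    have hpr : (0 : ℝ) < p := by exact_mod_cast hp.pos
    have hκ : (0 : ℝ) ≤ r / (w * WW q w) := by positivity
    have h1 := dens_dilate hNU (Z w) p t C (r / (w * WW q w)) r hκ (Nat.cast_nonneg _) hp.pos
      (hZcard w (by omega) hw2.le)
    refine (fai_mono hμ ?_).trans (h1.trans ?_)
    · rintro y ⟨hy1, hy2, -, hy4⟩
      refine ⟨hy2, ?_⟩
      obtain ⟨u, rfl⟩ := hy2
      rw [Nat.mul_div_cancel_left u hp.pos]
      by_contra hcon2
      push Not at hcon2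
      obtain ⟨h2, h3⟩ := hcon2
      have h4 : u ≡ n₀ [MOD Q] := by
        have h5 : p * u ≡ 1 * u [MOD Q] := Nat.ModEq.mul_right u hpQ
        rw [one_mul] at h5
        exact h5.symm.trans hy1
      have h5 : u + t ≡ n₀ [MOD Q] := by
        have h6 : t ≡ 0 [MOD Q] := by
          rw [ht]
          exact (Nat.modEq_zero_iff_dvd.2 (Dvd.intro _ rfl))
        have := Nat.ModEq.add h4 h6
        rwa [add_zero] at this
      have h6 : Fr α ε (u + t) ≠ 0 := by
        intro h7
        apply h3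
        rw [hZ, ← hQ]
        exact ⟨h2, h5, h7⟩
      have h7 : P (u + t) := (hP _).2 ⟨h5.of_dvd hqQ, h6⟩
      apply hy4
      -- the product
      have h8 : ∀ i, lam (p * u + p * β i) = - lam (((u + t : ℕ) : ℤ) + α (e.symm i).1).toNat := by
        intro i
        have h9 : ((((u + t : ℕ) : ℤ) + α (e.symm i).1).toNat : ℤ) = u + β i := by
          have h10 := (abs_le.1 (hC (e.symm i).1)).1
          have h11 : (C : ℤ) < ((u + t : ℕ) : ℤ) := by exact_mod_cast h2
          rw [Int.toNat_of_nonneg (by linarith), hβα]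
          push_cast
          ring
        have h10 : (((u + t : ℕ) : ℤ) + α (e.symm i).1).toNat = u + β i := by exact_mod_cast h9
        rw [h10, ← Nat.mul_add, lam_prime_mul hp]
        intro h11
        have h12 := (Fr_ne_zero_iff α ε hε (u + t)).1 h6 (e.symm i).1
        rw [h10, h11] at h12
        exact not_squarefree_zero h12
      have h9 : rel β lam p (p * u) = (-1) ^ k * Fr α ε (u + t) := by
        unfold rel
        rw [Finset.prod_congr rfl (fun i _ => h8 i), Finset.prod_neg, Finset.card_univ,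
          Fintype.card_fin, Fr_eq_prod α ε hε (u + t) h6]
        congr 1
        have h13 := e.symm.prod_comp (fun x => lam (((u + t : ℕ) : ℤ) + α x.1).toNat)
        rw [h13]
        exact Finset.prod_coe_sort ((Finset.univ : Finset (Fin r)).filter (fun i => Odd (ε i)))
          (fun x => lam (((u + t : ℕ) : ℤ) + α x).toNat)
      rw [h9, hσ]
      simp only
      rw [Nat.mul_div_cancel_left u hp.pos, hs, sfun_of_pos h7]
      push_cast
      congr 1
      rcases hFr _ h7 with h10 | h10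
      · rw [if_pos h10, h10]
      · rw [if_neg (by rw [h10]; norm_num), h10]
    · rw [← hQ]
      have h2 : (r : ℝ) / (w * Q) / p = (r / w) / (p * Q) := by
        field_simp
      rw [h2]
      apply div_le_div_of_nonneg_right _ (by positivity)
      rw [div_le_iff₀ hw0]
      rw [div_lt_iff₀ hη] at hw1
      linarith

end Pool.Agent.H14.T2
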